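import Pool.Agent.Helper24.UB.AsLast
import Pool.Agent.Helper24.UB.WtLast
import Pool.Agent.Helper22.Sym.Sharp

/-!
# Lattice width and asymmetry in dimension three

Let `K` be a lattice-free convex body in dimension three such that `c - (x - c) / s` is in `K` for all `x` in `K`
(Minkowski asymmetry at most `s` about the point `c`), `1 ≤ s ≤ 2.66`.  Then the lattice width of `K` is at most
`2 + √2`, and also at most `3/2 + √(3 (s² + 4 s + 1) / (1 + s)) / 2` (this is smaller than `2 + √2` for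
`s ≤ 2.46`).  For `s = 1` (centrally symmetric bodies) the second bound is `3`, and the octahedron
`∑ |x i - 1/2| ≤ 3/2` shows that this is attained.

Sketch of the proof.  For every superbase `f` of the lattice a Kuhn-Sperner argument gives a chain of four lattice
points with steps from `f` and separators `v k` of `K` with sum zero, normalised so that the four gaps have sum one.
On `K` the gap of `v k` is at most `κ k = min (1, (1 + s) * gap at c)`, with `∑ κ k ≤ 1 + s`.  By Brouwer's theorem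
there is an equilibrium: weights `y` on finitely many superbases such that all superbases of positive weight are
obtuse for the form `Q = ε I + ∑ y ∑ (v k)(v k)ᵀ / u k`.  All of them have the Selling vectors `r` of `Q` in common.
The inequality of Cauchy and Schwarz with the weights `u` and the trace of `Q⁻¹ Q` give the bound: with `u = κ` the
second one, with `u k` about `κ k / (1 + 0.926 (1 - κ k))` (caps `κ` rounded up to a grid of step `1 / 200`) the
first one.
-/

namespace Pool.Agent.Results.MP_be0fb5_gt.AsymmetryBound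

/-- **Lattice width of lattice-free bodies of asymmetry at most `2.66`.** -/
theorem result :
    (∀ (K : Set (Fin 3 → ℝ)) (c : Fin 3 → ℝ) (s : ℝ), IsCompact K → Convex ℝ K →
      (interior K).Nonempty → (∀ z : Fin 3 → ℤ, (fun i => (z i : ℝ)) ∉ interior K) →
      1 ≤ s → s ≤ 266 / 100 → (∀ x ∈ K, c - (1 / s) • (x - c) ∈ K) →
      ∃ y : Fin 3 → ℤ, y ≠ 0 ∧
        (∀ x ∈ K, ∀ x' ∈ K, ∑ i, (x i - x' i) * (y i : ℝ) ≤ 2 + Real.sqrt 2) ∧
        (∀ x ∈ K, ∀ x' ∈ K, ∑ i, (x i - x' i) * (y i : ℝ) ≤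
          3 / 2 + Real.sqrt (3 * (s ^ 2 + 4 * s + 1) / (1 + s)) / 2)) ∧
    (∃ (K : Set (Fin 3 → ℝ)) (c : Fin 3 → ℝ), IsCompact K ∧ Convex ℝ K ∧ (interior K).Nonempty ∧
      (∀ z : Fin 3 → ℤ, (fun i => (z i : ℝ)) ∉ interior K) ∧ (∀ x ∈ K, c - (x - c) ∈ K) ∧
      ∀ y : Fin 3 → ℤ, y ≠ 0 → ∃ x ∈ K, ∃ x' ∈ K,
        3 ≤ ∑ i, (x i - x' i) * (y i : ℝ)) := by
  refine ⟨fun K c s hK hcv hint hfree hs hs' hsym => ?_, Pool.Agent.Helper22.Sym.sharp⟩
  rcases le_total (3 / 2 + Real.sqrt (3 * (s ^ 2 + 4 * s + 1) / (1 + s)) / 2) (2 + Real.sqrt 2) with h | h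
  · obtain ⟨y, hy0, hy⟩ := Pool.Agent.Helper24.UB.asym_direction K hK hcv hint hfree c s hs hsym
    exact ⟨y, hy0, fun x hx x' hx' => (hy x hx x' hx').trans h, hy⟩
  · obtain ⟨y, hy0, hy⟩ := Pool.Agent.Helper24.UB.asym266 K hK hcv hint hfree c s hs hs' hsym
    exact ⟨y, hy0, hy, fun x hx x' hx' => (hy x hx x' hx').trans h⟩

end Pool.Agent.Results.MP_be0fb5_gt.AsymmetryBound
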