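import Pool.Agent.Helper38.TET.Final
import Pool.Agent.Helper44.ThA.Top
import Pool.Agent.Helper34.FIVE.Tet
import Pool.Agent.Helper24.FIVE.Main4
import Pool.Agent.Helper80.TK.Top

/-!
# Lattice-free polytopes with at most five facets have lattice width at most `2 + √2`

The class of the theorem: the convex bodies `K` which lie in a lattice-free polytope with at most five facets
(in particular these polytopes themselves: tetrahedra, combinatorial triangular prisms, pyramids over quadrilaterals), and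
the bodies, with any number of facets, which lie in an obtuse chain tetrahedron.  An obtuse chain tetrahedron is
given by `g k · x ≤ g k · P k` with `∑ g k = 0` and `∑ g k · P k = 1`, where `P (k + 1) = P k + f k` (indices modulo
four), the `f l` are integer vectors with sum zero which generate the lattice of integer vectors, and make pairwise
non-acute angles in the Euclidean structure `∑ (g k · x) ^ 2`.
-/

set_option autoImplicit false

namespace Pool.Agent.Results.MP_be0fb5_gt.FiveFacets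

/-- `K` lies in a lattice-free polytope with at most five facets: a bounded set given by the five inequalities
`w i · x ≤ b i`, without lattice points in its interior -/
def InFiveFacets (K : Set (Fin 3 → ℝ)) : Prop :=
  ∃ (w : Fin 5 → Fin 3 → ℝ) (b : Fin 5 → ℝ),
    Bornology.IsBounded {x : Fin 3 → ℝ | ∀ i, ∑ j, w i j * x j ≤ b i} ∧
    (∀ z : Fin 3 → ℤ, (fun j => (z j : ℝ)) ∉ interior {x : Fin 3 → ℝ | ∀ i, ∑ j, w i j * x j ≤ b i}) ∧
    K ⊆ {x : Fin 3 → ℝ | ∀ i, ∑ j, w i j * x j ≤ b i}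

/-- `K` lies in an obtuse chain tetrahedron -/
def InObtuseChain (K : Set (Fin 3 → ℝ)) : Prop :=
  ∃ (f P : Fin 4 → Fin 3 → ℤ) (g : Fin 4 → Fin 3 → ℝ), ∑ l, f l = 0 ∧
    (∀ z : Fin 3 → ℤ, ∃ a : Fin 4 → ℤ, z = ∑ l, a l • f l) ∧ (∀ k, P (k + 1) = P k + f k) ∧
    ∑ j, g j = 0 ∧ (∀ m : Fin 3 → ℝ, ∃ c : Fin 4 → ℝ, ∑ k, c k • g k = m) ∧
    ∑ j, ∑ i, g j i * (P j i : ℝ) = 1 ∧
    (∀ k, ∀ x ∈ K, ∑ i, g k i * x i ≤ ∑ i, g k i * (P k i : ℝ)) ∧
    ∀ l m, l ≠ m → ∑ j, (∑ i, g j i * (f l i : ℝ)) * (∑ i, g j i * (f m i : ℝ)) ≤ 0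


/-- **The flatness constant of the bodies in lattice-free polytopes with at most five facets, or in obtuse chain
tetrahedra, is `2 + √2`.** -/
theorem result :
    (∀ K : Set (Fin 3 → ℝ), IsCompact K → Convex ℝ K → (interior K).Nonempty →
      (∀ z : Fin 3 → ℤ, (fun i => (z i : ℝ)) ∉ interior K) → InFiveFacets K ∨ InObtuseChain K →
      ∃ y : Fin 3 → ℤ, y ≠ 0 ∧ ∀ x ∈ K, ∀ x' ∈ K,
        ∑ i, (x i - x' i) * (y i : ℝ) ≤ 2 + Real.sqrt 2) ∧
    (∃ v : Fin 4 → Fin 3 → ℝ, AffineIndependent ℝ v ∧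
      (∀ z : Fin 3 → ℤ, (fun i => (z i : ℝ)) ∉ interior (convexHull ℝ (Set.range v))) ∧
      InFiveFacets (convexHull ℝ (Set.range v)) ∧
      ∀ y : Fin 3 → ℤ, y ≠ 0 → ∃ x ∈ convexHull ℝ (Set.range v),
        ∃ x' ∈ convexHull ℝ (Set.range v), 2 + Real.sqrt 2 ≤ ∑ i, (x i - x' i) * (y i : ℝ)) := by
  refine ⟨fun K hc hcv hi hfree h => ?_, ?_⟩
  · rcases h with ⟨w, b, hb, hz, hK⟩ | ⟨f, P, g, hf, hgen, hP, hg, hspan, hone, hsub, hob⟩
    · obtain ⟨y, hy, hw⟩ := Pool.Agent.Helper24.FIVE.five_kf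
        Pool.Agent.Helper80.TK.cert w b hb (hi.mono (interior_mono hK)) hz
      exact ⟨y, hy, fun x hx x' hx' => hw x (hK hx) x' (hK hx')⟩
    · exact Pool.Agent.Helper38.TET.body_of Pool.Agent.Helper44.ThA.core K hc hcv hi hfree f P g hf hgen hP hg
        hspan hone hsub hob
  · obtain ⟨v, hv, hfree, hw⟩ := Pool.Agent.Helper38.TET.tet_sharp
    exact ⟨v, hv, hfree, Pool.Agent.Helper34.FIVE.five_of_tet v hv hfree, hw⟩

end Pool.Agent.Results.MP_be0fb5_gt.FiveFacets
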