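import Pool.Agent.Helper84.FL.Final

/-!
# The flatness constant of three dimensional bodies in M-position

Let `f 0, f 1, f 2, f 3` be integer vectors with sum zero which generate the lattice of integer
vectors of dimension three (a superbase).  A real vector `n` is *in position* `j` with respect to
`f` if it is nonzero and its products with the three vectors `f l`, `l ≠ j`, are nonnegative.
The theorem says that the largest lattice width of the convex bodies `K` such that every lattice
point is separated from `K` by a vector in some position is exactly `2 + √2`, the value which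
Codenotti and Santos conjecture to be the flatness constant in dimension three.  The simplex of
Codenotti and Santos is such a body.
-/

namespace Pool.Agent.Results.MP_be0fb5_gt.MPosition

open Pool.Agent.Helper84.FL

/-- **The flatness constant of the bodies in M-position is `2 + √2`.** -/
theorem result :
    (∀ (f : Fin 4 → Fin 3 → ℤ) (K : Set (Fin 3 → ℝ)), Superbase f → Bornology.IsBounded K →
      Sep f K → ∃ y : Fin 3 → ℤ, y ≠ 0 ∧ ∀ x ∈ K, ∀ x' ∈ K,
        ∑ i, (x i - x' i) * (y i : ℝ) ≤ 2 + Real.sqrt 2) ∧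
    (∃ (f : Fin 4 → Fin 3 → ℤ) (K : Set (Fin 3 → ℝ)), Superbase f ∧ IsCompact K ∧ Convex ℝ K ∧
      (interior K).Nonempty ∧ (∀ z : Fin 3 → ℤ, (fun i => (z i : ℝ)) ∉ interior K) ∧ Sep f K ∧
      ∀ y : Fin 3 → ℤ, y ≠ 0 → ∃ x ∈ K, ∃ x' ∈ K,
        2 + Real.sqrt 2 ≤ ∑ i, (x i - x' i) * (y i : ℝ)) := by
  refine ⟨fun f K hf hK hs => final f hf K hK hs, ?_⟩
  obtain ⟨f, K, hf, hc, hcv, hi, hs, hw⟩ := sharp
  refine ⟨f, K, hf, hc, hcv, hi, ?_, hs, hw⟩
  intro z hz
  obtain ⟨n, j, hn, hx⟩ := hs z
  rw [mem_interior_iff_mem_nhds, Metric.mem_nhds_iff] at hz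
  obtain ⟨ε, hε, hball⟩ := hz
  -- move from `z` in the direction `n`
  have hn0 : n ≠ 0 := hn.1
  have hnorm : 0 < ‖n‖ := norm_pos_iff.mpr hn0
  set t : ℝ := ε / (2 * ‖n‖) with ht
  have htpos : 0 < t := by positivity
  have hmem : (fun i => (z i : ℝ) + t * n i) ∈ K := by
    apply hball
    rw [Metric.mem_ball, dist_eq_norm]
    have : ((fun i => (z i : ℝ) + t * n i) - fun i => (z i : ℝ)) = t • n := by
      funext i; simp
    rw [this, norm_smul, Real.norm_eq_abs, abs_of_pos htpos, ht]
    have : ε / (2 * ‖n‖) * ‖n‖ = ε / 2 := by field_simp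
    rw [this]; linarith
  have h1 := hx _ hmem
  have h2 : pr n (fun i => (z i : ℝ) + t * n i) = pz n z + t * ∑ i, n i * n i := by
    unfold pr pz
    rw [Finset.mul_sum, ← Finset.sum_add_distrib]
    exact Finset.sum_congr rfl fun i _ => by ring
  have h3 : 0 < ∑ i, n i * n i := by
    obtain ⟨i, hi⟩ : ∃ i, n i ≠ 0 := by
      by_contra hcon; push Not at hcon; exact hn0 (funext hcon)
    exact Finset.sum_pos' (fun i _ => mul_self_nonneg _) ⟨i, Finset.mem_univ _, mul_self_pos.mpr hi⟩
  rw [h2] at h1
  nlinarith [mul_pos htpos h3]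

end Pool.Agent.Results.MP_be0fb5_gt.MPosition
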