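import Pool.Agent.Helper24.UB.Last

/-!
# An upper bound for the flatness constant in dimension three

Every lattice-free convex body in dimension three has lattice width at most `(6 + √66) / 4 = 3.5310...`.

Sketch of the proof.  For every superbase `f` of the lattice a Kuhn-Sperner argument gives a chain of four lattice
points with steps from `f` and four separators `v k` of `K` with sum zero, normalised so that the four gaps have sum
one.  By Brouwer's theorem there is an equilibrium: weights `y` on finitely many superbases such that all superbases of
positive weight are obtuse for the form `Q = ε I + ∑ y V ᵀ V`.  All of them have the Selling vectors `r` of `Q` in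
common.  The width of `K` in the direction of `r` is at most the mean of the ranges of `V Q⁻¹ r`, and the
normalisation of the chains is a weighted sum over `r` of products with vectors with two values.  The inequality of
Cauchy and Schwarz and the trace of `Q⁻¹ Q` give the bound.
-/

namespace Pool.Agent.Results.MP_be0fb5_gt.UniversalBound

/-- **The flatness constant in dimension three is at most `(6 + √66) / 4`.** -/
theorem result : ∀ K : Set (Fin 3 → ℝ), IsCompact K → Convex ℝ K → (interior K).Nonempty →
    (∀ z : Fin 3 → ℤ, (fun i => (z i : ℝ)) ∉ interior K) →
    ∃ y : Fin 3 → ℤ, y ≠ 0 ∧ ∀ x ∈ K, ∀ x' ∈ K,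
      ∑ i, (x i - x' i) * (y i : ℝ) ≤ (6 + Real.sqrt 66) / 4 :=
  fun K hK hcv hint hfree => Pool.Agent.Helper24.UB.exists_direction K hK hcv hint hfree

end Pool.Agent.Results.MP_be0fb5_gt.UniversalBound
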